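import Pool.Agent.Helper38.XF.Tools

/-!
Swarm XF, part HEN: simple zeros of polynomials over the field of Laurent series depend
continuously on the coefficients.
-/

set_option autoImplicit false

namespace Pool.Agent.Helper89.XF.HEN

open Pool.Agent.Helper38.XF Polynomial

section Fix

variable {k : Type} [Field k]

/-- contractions of the ring of power series have fixed points -/
theorem exists_fix (F : PowerSeries k → PowerSeries k)
    (hF : ∀ n x y, (PowerSeries.X : PowerSeries k) ^ n ∣ x - y →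
      (PowerSeries.X : PowerSeries k) ^ (n + 1) ∣ F x - F y) : ∃ x, F x = x := by
  set s : ℕ → PowerSeries k := fun n => F^[n] 0 with hs
  have hs1 : ∀ n, s (n + 1) = F (s n) := fun n => Function.iterate_succ_apply' F n 0
  have h1 : ∀ n, (PowerSeries.X : PowerSeries k) ^ n ∣ s (n + 1) - s n := by
    intro n
    induction n with
    | zero => simp
    | succ n ih =>
      rw [hs1 (n + 1), hs1 n]
      exact hF n _ _ (by rw [← hs1 n]; exact ih)
  have h2 : ∀ n m, n ≤ m → (PowerSeries.X : PowerSeries k) ^ n ∣ s m - s n := by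
    intro n m hnm
    induction m, hnm using Nat.le_induction with
    | base => simp
    | succ m hnm ih =>
      have : s (m + 1) - s n = (s (m + 1) - s m) + (s m - s n) := by ring
      rw [this]
      exact dvd_add ((pow_dvd_pow _ hnm).trans (h1 m)) ih
  set x : PowerSeries k := PowerSeries.mk fun n => PowerSeries.coeff n (s (n + 1)) with hx
  have h3 : ∀ n, (PowerSeries.X : PowerSeries k) ^ n ∣ x - s n := by
    intro n
    rw [PowerSeries.X_pow_dvd_iff]
    intro m hm
    have h4 := PowerSeries.X_pow_dvd_iff.1 (h2 (m + 1) n hm) m (Nat.lt_succ_self m)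
    rw [map_sub, sub_eq_zero] at h4
    rw [map_sub, hx, PowerSeries.coeff_mk, h4, sub_self]
  refine ⟨x, ?_⟩
  rw [← sub_eq_zero]
  ext n
  have h4 : (PowerSeries.X : PowerSeries k) ^ (n + 1) ∣ F x - x := by
    have : F x - x = (F x - F (s n)) - (x - s (n + 1)) := by rw [hs1]; ring
    rw [this]
    exact dvd_sub (hF n _ _ (h3 n)) (h3 (n + 1))
  rw [PowerSeries.X_pow_dvd_iff.1 h4 n (Nat.lt_succ_self n), map_zero]

/-- zeros of `x + X P(x)` -/
theorem exists_zero (P : (PowerSeries k)[X]) :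
    ∃ x : PowerSeries k, x + PowerSeries.X * P.eval x = 0 := by
  obtain ⟨x, hx⟩ := exists_fix (fun x => -(PowerSeries.X * P.eval x)) (by
    intro n x y hxy
    have h1 : -(PowerSeries.X * P.eval x) - -(PowerSeries.X * P.eval y) =
        -(PowerSeries.X * (P.eval x - P.eval y)) := by ring
    simp only [h1, dvd_neg, pow_succ']
    exact mul_dvd_mul_left _ (hxy.trans (sub_dvd_eval_sub x y P)))
  exact ⟨x, by linear_combination -hx⟩

end Fix

section Clear

variable {k : Type} [Field k]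

theorem clear_const (z : LaurentSeries k) : ∃ b : ℕ, ∃ f : PowerSeries k,
    algebraMap (PowerSeries k) (LaurentSeries k) f =
      algebraMap (PowerSeries k) (LaurentSeries k) PowerSeries.X ^ b * z := by
  obtain ⟨⟨f, ⟨_, ⟨b, rfl⟩⟩⟩, hf⟩ :=
    IsLocalization.surj (Submonoid.powers (PowerSeries.X : PowerSeries k)) z
  refine ⟨b, f, ?_⟩
  rw [← hf, ← map_pow, mul_comm]

theorem clear (P : (LaurentSeries k)[X]) : ∃ b : ℕ, ∀ b', b ≤ b' → ∃ Q : (PowerSeries k)[X],
    Q.map (algebraMap (PowerSeries k) (LaurentSeries k)) =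
      C (algebraMap (PowerSeries k) (LaurentSeries k) PowerSeries.X ^ b') * P := by
  induction P using Polynomial.induction_on' with
  | add P Q hP hQ =>
    obtain ⟨b, hb⟩ := hP
    obtain ⟨b1, hb1⟩ := hQ
    refine ⟨max b b1, fun b' hb' => ?_⟩
    obtain ⟨P', hP'⟩ := hb b' ((le_max_left _ _).trans hb')
    obtain ⟨Q', hQ'⟩ := hb1 b' ((le_max_right _ _).trans hb')
    exact ⟨P' + Q', by rw [Polynomial.map_add, hP', hQ', mul_add]⟩
  | monomial n z =>
    obtain ⟨b, f, hf⟩ := clear_const z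
    refine ⟨b, fun b' hb' => ⟨monomial n (PowerSeries.X ^ (b' - b) * f), ?_⟩⟩
    rw [Polynomial.map_monomial, C_mul_monomial, map_mul, hf, map_pow, ← mul_assoc, ← pow_add,
      Nat.sub_add_cancel hb']

end Clear

theorem main : St_HEN := by
  intro p _ O hO d c a e he h0 h1
  set φ : PowerSeries (ZMod p) →+* LaurentSeries (ZMod p) :=
    algebraMap (PowerSeries (ZMod p)) (LaurentSeries (ZMod p)) with hφ
  set t : LaurentSeries (ZMod p) := φ PowerSeries.X with ht
  have ht0 : t ≠ 0 := by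
    rw [ht, Ne, map_eq_zero_iff φ (IsFractionRing.injective _ _)]
    exact PowerSeries.X_ne_zero
  have hOφ : ∀ f, φ f ∈ O := fun f => (hO _).2 ⟨f, rfl⟩
  -- the polynomial
  set G : (LaurentSeries (ZMod p))[X] := ∑ i ∈ Finset.range (d + 1), C (c i) * X ^ i with hG
  have hGe : ∀ y, G.eval y = ∑ i ∈ Finset.range (d + 1), c i * y ^ i := by
    intro y
    simp [hG, eval_finsetSum]
  set D : LaurentSeries (ZMod p) := G.derivative.eval a with hD
  have hD0 : D ≠ 0 := by
    have : D = ∑ i ∈ Finset.range (d + 1), (i : LaurentSeries (ZMod p)) * c i * a ^ (i - 1) := by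
      rw [hD, hG, derivative_sum, eval_finsetSum]
      refine Finset.sum_congr rfl fun i _ => ?_
      rw [derivative_C_mul_X_pow, eval_mul, eval_C, eval_pow, eval_X]
      ring
    rw [this]
    exact h1
  set g2 : (LaurentSeries (ZMod p))[X] := divX (divX (taylor a G)) with hg2
  have hT : ∀ y, G.eval (a + y) = D * y + y ^ 2 * g2.eval y := by
    intro y
    have e1 : (taylor a G).eval y = G.eval (a + y) := by rw [taylor_eval, add_comm]
    have e2 := congrArg (eval y) (divX_mul_X_add (taylor a G))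
    have e3 := congrArg (eval y) (divX_mul_X_add (divX (taylor a G)))
    rw [taylor_coeff_zero] at e2
    rw [coeff_divX, zero_add, taylor_coeff_one] at e3
    rw [hGe a] at e2
    rw [h0] at e2
    simp only [eval_add, eval_mul, eval_X, eval_C] at e2 e3
    rw [← e1, ← e2, ← e3]
    ring
  -- the scale
  obtain ⟨A1, hA1⟩ := clear (C D⁻¹ * g2)
  obtain ⟨A2, f2, hf2⟩ := clear_const e⁻¹
  set A := max A1 A2 with hA
  obtain ⟨Q, hQ⟩ := hA1 A (le_max_left _ _)
  set η : LaurentSeries (ZMod p) := t ^ (A + 1) with hη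
  have hη0 : η ≠ 0 := pow_ne_zero _ ht0
  have hηe : ∃ z : PowerSeries (ZMod p), η = e * φ z := by
    refine ⟨PowerSeries.X ^ (A + 1 - A2) * f2, ?_⟩
    rw [map_mul, map_pow, hf2, mul_left_comm, mul_left_comm e, mul_inv_cancel₀ he, mul_one,
      ← pow_add, Nat.sub_add_cancel ((le_max_right _ _).trans (Nat.le_succ _))]
  -- the perturbation
  have hP : ∀ i, ∃ b : ℕ, ∀ b', b ≤ b' → ∃ Q : (PowerSeries (ZMod p))[X],
    Q.map φ = C (t ^ b') * (C (D * η)⁻¹ * (C a + C η * X) ^ i) := fun i => clear _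
  choose b hb using hP
  set B := ∑ i ∈ Finset.range (d + 1), b i with hB
  have hP2 : ∀ i, ∃ Q : (PowerSeries (ZMod p))[X], i ∈ Finset.range (d + 1) →
      Q.map φ = C (t ^ B) * (C (D * η)⁻¹ * (C a + C η * X) ^ i) := by
    intro i
    by_cases hi : i ∈ Finset.range (d + 1)
    · obtain ⟨Q, hQ⟩ := hb i B (Finset.single_le_sum (fun _ _ => Nat.zero_le _) hi)
      exact ⟨Q, fun _ => hQ⟩
    · exact ⟨0, fun h => absurd h hi⟩
  choose q hq using hP2
  refine ⟨t ^ (B + 1), pow_ne_zero _ ht0, ?_⟩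
  intro c' hc'
  have hz : ∀ i, ∃ z : PowerSeries (ZMod p), i ∈ Finset.range (d + 1) →
      c' i - c i = t ^ (B + 1) * φ z := by
    intro i
    by_cases hi : i ∈ Finset.range (d + 1)
    · obtain ⟨z, hz, h⟩ := hc' i (Finset.mem_range_succ_iff.1 hi)
      obtain ⟨f, rfl⟩ := (hO z).1 hz
      exact ⟨f, fun _ => h⟩
    · exact ⟨0, fun h => absurd h hi⟩
  choose z hz using hz
  obtain ⟨x, hx⟩ := exists_zero (Q.comp (C (PowerSeries.X ^ (A + 1)) * X) * X ^ 2 +
    ∑ i ∈ Finset.range (d + 1), C (z i) * q i)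
  refine ⟨a + η * φ x, ?_, ?_⟩
  · obtain ⟨w, hw⟩ := hηe
    refine ⟨φ w * φ x, O.mul_mem _ _ (hOφ _) (hOφ _), ?_⟩
    rw [hw]; ring
  · have e1 : φ (eval x (Q.comp (C (PowerSeries.X ^ (A + 1)) * X))) =
        t ^ A * (D⁻¹ * g2.eval (η * φ x)) := by
      have := congrArg (eval (η * φ x)) hQ
      simp only [eval_mul, eval_C] at this
      rw [eval_comp, ← Polynomial.eval_map_apply, eval_mul, eval_C, eval_X, map_mul, map_pow]
      exact this
    have e2 : ∀ i ∈ Finset.range (d + 1), φ (eval x (q i)) =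
        t ^ B * ((D * η)⁻¹ * (a + η * φ x) ^ i) := by
      intro i hi
      have := congrArg (eval (φ x)) (hq i hi)
      simp only [eval_mul, eval_C, eval_pow, eval_add, eval_X] at this
      rw [← Polynomial.eval_map_apply]
      exact this
    have e3 := congrArg φ hx
    rw [map_add, map_mul, map_zero, eval_add, eval_mul, map_add, map_mul, e1, eval_pow, eval_X,
      eval_finsetSum, map_sum, map_pow] at e3
    have e4 : ∑ i ∈ Finset.range (d + 1), φ (eval x (C (z i) * q i)) =
        ∑ i ∈ Finset.range (d + 1), φ (z i) * (t ^ B * ((D * η)⁻¹ * (a + η * φ x) ^ i)) := by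
      refine Finset.sum_congr rfl fun i hi => ?_
      rw [eval_mul, eval_C, map_mul, e2 i hi]
    rw [e4] at e3
    have e5 : ∑ i ∈ Finset.range (d + 1), c' i * (a + η * φ x) ^ i =
        G.eval (a + η * φ x) +
          ∑ i ∈ Finset.range (d + 1), t ^ (B + 1) * φ (z i) * (a + η * φ x) ^ i := by
      rw [hGe, ← Finset.sum_add_distrib]
      refine Finset.sum_congr rfl fun i hi => ?_
      rw [← hz i hi]
      ring
    have e6 : ∑ i ∈ Finset.range (d + 1), φ (z i) * (t ^ B * ((D * η)⁻¹ * (a + η * φ x) ^ i)) =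
        t ^ B * (D * η)⁻¹ * ∑ i ∈ Finset.range (d + 1), φ (z i) * (a + η * φ x) ^ i := by
      rw [Finset.mul_sum]
      exact Finset.sum_congr rfl fun i _ => by ring
    have e7 : ∑ i ∈ Finset.range (d + 1), t ^ (B + 1) * φ (z i) * (a + η * φ x) ^ i =
        t ^ (B + 1) * ∑ i ∈ Finset.range (d + 1), φ (z i) * (a + η * φ x) ^ i := by
      rw [Finset.mul_sum]
      exact Finset.sum_congr rfl fun i _ => by ring
    rw [e5, hT, e7]
    rw [e6] at e3
    set S := ∑ i ∈ Finset.range (d + 1), φ (z i) * (a + η * φ x) ^ i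
    have e8 : φ x + t * (t ^ A * (D⁻¹ * g2.eval (η * φ x)) * φ x ^ 2 +
      t ^ B * (D * η)⁻¹ * S) = 0 := e3
    have e9 : D * η * (φ x + t * (t ^ A * (D⁻¹ * g2.eval (η * φ x)) * φ x ^ 2 +
      t ^ B * (D * η)⁻¹ * S)) = 0 := by rw [e8, mul_zero]
    have e10 : D * η * (φ x + t * (t ^ A * (D⁻¹ * g2.eval (η * φ x)) * φ x ^ 2 +
      t ^ B * (D * η)⁻¹ * S)) = D * (η * φ x) + (η * (t * t ^ A)) * (D * D⁻¹) * φ x ^ 2 *
        g2.eval (η * φ x) + (t * t ^ B) * ((D * η) * (D * η)⁻¹) * S := by ring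
    rw [e10, mul_inv_cancel₀ hD0, mul_inv_cancel₀ (mul_ne_zero hD0 hη0), ← pow_succ', ← pow_succ',
      ← hη] at e9
    linear_combination e9

end Pool.Agent.Helper89.XF.HEN
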